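import Pool.Agent.PFC.StmtsB5c
import Pool.Agent.PFC.B4.Key

/-!
Squad PFC, block B5c, row BRK (helper15): the kernel of a split Brauer quotient on the fixed vectors
is the Brauer kernel.
-/

set_option autoImplicit false

noncomputable section

namespace Pool.Agent.PFC.B5c.H15

open scoped BigOperators

/-- the size of a transversal of a proper subgroup is divisible by `ℓ` -/
private theorem dvd_card {H : Type} [Group H] [Finite H] (ℓ : ℕ) [Fact ℓ.Prime]
    (P' P : Subgroup H) (hlt : P' < P) (hP : IsPGroup ℓ P) (S : Finset H) (hS : IsTv P' P S) :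
    ℓ ∣ S.card := by
  have hc := card_tv P' P hlt.le S hS
  obtain ⟨k, hk⟩ := (IsPGroup.iff_card).1 hP
  have hdiv : S.card ∣ ℓ ^ k := ⟨_, by rw [← hk]; exact hc.symm⟩
  obtain ⟨j, -, hj⟩ := (Nat.dvd_prime_pow (Fact.out : ℓ.Prime)).1 hdiv
  rcases Nat.eq_zero_or_pos j with h0 | h0
  · exfalso
    rw [h0, pow_zero] at hj
    rw [hj, one_mul] at hc
    exact hlt.ne (Subgroup.eq_of_le_of_card_ge hlt.le hc.ge)
  · rw [hj]
    exact dvd_pow_self ℓ h0.ne'

/-- BRK. -/
theorem brk : BrkStmt := by
  intro ℓ _ F V M N _ _ _ _ _ _ _ _ ρ ρ' Q β s hV hB m hm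
  constructor
  · intro h0
    have key : ∀ T ∈ PT ρ Q, T m ∈ BK ρ Q := by
      intro T hT
      unfold PT at hT
      induction hT using Submodule.span_induction with
      | mem T hT =>
        obtain ⟨K, S, h, hK, hS, hh, hT⟩ := hT
        refine Submodule.subset_span ⟨K, S, h m, hK, hS, ?_, ?_⟩
        · intro k hk
          rw [hh k hk, hm k (hK.le hk)]
        · rw [hT m]
          refine Finset.sum_congr rfl fun x hx => ?_
          rw [hm x⁻¹ (Q.inv_mem (hS.1 x hx))]
      | zero => exact Submodule.zero_mem _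
      | add a b _ _ ha hb => exact Submodule.add_mem _ ha hb
      | smul r a _ ha => exact Submodule.smul_mem _ _ ha
    have h1 := key _ hB.hg
    rw [LinearMap.sub_apply, LinearMap.id_apply, LinearMap.comp_apply, h0, map_zero,
      sub_zero] at h1
    exact h1
  · intro h
    clear hm
    unfold BK at h
    induction h using Submodule.span_induction with
    | mem n hn =>
      obtain ⟨K, S, x, hK, hS, hx, rfl⟩ := hn
      have h1 : ∀ y ∈ S, β (ρ y x) = β x := by
        intro y hy
        rw [hB.eb, hB.tr y (hS.1 y hy)]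
      rw [map_sum, Finset.sum_congr rfl h1, Finset.sum_const]
      obtain ⟨d, hd⟩ := dvd_card ℓ K Q hK (hV.to_subgroup Q) S hS
      rw [hd, ← Nat.cast_smul_eq_nsmul F, Nat.cast_mul, CharP.cast_eq_zero, zero_mul, zero_smul]
    | zero => exact map_zero _
    | add a b _ _ ha hb => rw [map_add, ha, hb, add_zero]
    | smul r a _ ha => rw [map_smul, ha, smul_zero]

end Pool.Agent.PFC.B5c.H15
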