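import Pool.Agent.PFC.StmtsB5a

/-!
Squad PFC, block B5a, row KWA (helper15): the bimodule lift.
-/

set_option autoImplicit false

noncomputable section

namespace Pool.Agent.PFC.B5a.H15

open scoped BigOperators

section

variable {F V : Type} [Field F] [CommGroup V] {n : ℕ}

/-- the matrix `M ⊗ v` -/
private def tn (M : Matrix (Fin n) (Fin n) F) (v : V) :
    Matrix (Fin n) (Fin n) (MonoidAlgebra F V) :=
  Matrix.of fun i j => MonoidAlgebra.single v (M i j)

private theorem tn_apply (M : Matrix (Fin n) (Fin n) F) (v : V) (i j : Fin n) :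
    tn M v i j = MonoidAlgebra.single v (M i j) := rfl

private theorem tn_mul (M M' : Matrix (Fin n) (Fin n) F) (v v' : V) :
    tn M v * tn M' v' = tn (M * M') (v * v') := by
  ext1 i j
  rw [Matrix.mul_apply, tn_apply, Matrix.mul_apply]
  simp only [tn_apply, MonoidAlgebra.single_mul_single]
  exact (map_sum (MonoidAlgebra.singleAddHom (v * v')) (fun k => M i k * M' k j)
    Finset.univ).symm

private theorem tn_add (M M' : Matrix (Fin n) (Fin n) F) (v : V) :
    tn (M + M') v = tn M v + tn M' v := by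
  ext1 i j
  rw [Matrix.add_apply, tn_apply, tn_apply, tn_apply, Matrix.add_apply]
  exact MonoidAlgebra.single_add _ _ _

private theorem tn_smul (r : F) (M : Matrix (Fin n) (Fin n) F) (v : V) :
    tn (r • M) v = r • tn M v := by
  ext1 i j
  rw [Matrix.smul_apply, tn_apply, tn_apply, Matrix.smul_apply, MonoidAlgebra.smul_single]

private theorem au_single (v : V) (c : F) : au F V (MonoidAlgebra.single v c) = c := by
  rw [au, MonoidAlgebra.lift_single]
  simp

private theorem au_tn (M : Matrix (Fin n) (Fin n) F) (v : V) :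
    (au F V).mapMatrix (tn M v) = M := by
  ext1 i j
  rw [AlgHom.mapMatrix_apply, Matrix.map_apply, tn_apply, au_single]

end

/-- KWA. -/
theorem kwaa : KwaStmt := by
  intro nil ℓ _ F V B _ _ _ _ _ _ β n π μ hV hμ1 hμ2
  obtain ⟨N, hN⟩ := nil ℓ F V hV
  -- the map `f₀`
  let f0 : B →ₗ[F] Matrix (Fin n) (Fin n) (MonoidAlgebra F V) :=
    { toFun := fun b => ∑ v : V, tn (π (μ (b * β v⁻¹)) * π (β v)) v
      map_add' := fun x y => by
        simp only [add_mul, map_add, tn_add, Finset.sum_add_distrib]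
      map_smul' := fun r x => by
        simp only [smul_mul_assoc, map_smul, tn_smul, Finset.smul_sum, RingHom.id_apply] }
  have hf0 : ∀ b, f0 b = ∑ v : V, tn (π (μ (b * β v⁻¹)) * π (β v)) v := fun b => rfl
  -- augmentation
  have haug : ∀ b, (au F V).mapMatrix (f0 b) = π b := by
    intro b
    rw [hf0, map_sum]
    simp only [au_tn]
    have h1 := congrArg π (hμ2 b)
    rw [map_sum] at h1
    rw [← h1]
    exact Finset.sum_congr rfl fun v _ => (map_mul π _ _).symm
  -- right
  have hr : ∀ b w, f0 (b * β w) = f0 b * tn (π (β w)) w := by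
    intro b w
    rw [hf0, hf0, Finset.sum_mul, ← Equiv.sum_comp (Equiv.mulRight w)]
    refine Finset.sum_congr rfl fun v _ => ?_
    rw [Equiv.coe_mulRight, tn_mul, mul_inv_rev, mul_assoc, ← map_mul β, ← mul_assoc w,
      mul_inv_cancel, one_mul, map_mul β v w, map_mul π, mul_assoc]
  -- left
  have hl : ∀ b w, f0 (β w * b) = tn (π (β w)) w * f0 b := by
    intro b w
    rw [hf0, hf0, Finset.mul_sum, ← Equiv.sum_comp (Equiv.mulLeft w)]
    refine Finset.sum_congr rfl fun v _ => ?_
    rw [Equiv.coe_mulLeft, tn_mul]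
    have e1 : β w * b * β (w * v)⁻¹ = β w * (b * β v⁻¹) * β w⁻¹ := by
      rw [mul_inv_rev, map_mul β v⁻¹ w⁻¹, mul_assoc, mul_assoc, mul_assoc]
    have e2 : β w⁻¹ * β (w * v) = β v := by
      rw [← map_mul, inv_mul_cancel_left]
    rw [e1, hμ1, ← map_mul π, mul_assoc (β w * μ (b * β v⁻¹)), e2, mul_assoc, map_mul, map_mul]
  -- the unit
  set e := f0 1 with he
  have hge : ∀ w, e * tn (π (β w)) w = tn (π (β w)) w * e := by
    intro w
    rw [he, ← hr, ← hl, one_mul, mul_one]
  have hdet : IsUnit e.det := by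
    have h1 : au F V e.det = 1 := by
      have h2 := (au F V).map_det e
      rw [h2, haug, map_one, Matrix.det_one]
    have h3 : e.det - 1 ∈ RingHom.ker (au F V) := by
      rw [RingHom.mem_ker, map_sub, h1, map_one, sub_self]
    have h4 : IsNilpotent (e.det - 1) := by
      refine ⟨N, ?_⟩
      have h5 := Ideal.pow_mem_pow h3 N
      rw [hN] at h5
      exact h5
    have h6 := h4.isUnit_one_add
    rwa [add_sub_cancel] at h6
  have hu : IsUnit e := (Matrix.isUnit_iff_isUnit_det e).2 hdet
  obtain ⟨U, hU⟩ := hu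
  obtain ⟨d, hd⟩ : ∃ d : Matrix (Fin n) (Fin n) (MonoidAlgebra F V), d = ↑U⁻¹ := ⟨_, rfl⟩
  have hgU : ∀ w, d * tn (π (β w)) w = tn (π (β w)) w * d := by
    intro w
    rw [hd]
    have h1 : Commute (↑U : Matrix (Fin n) (Fin n) (MonoidAlgebra F V)) (tn (π (β w)) w) := by
      rw [hU]; exact hge w
    exact h1.units_inv_left
  have hUe : e * d = 1 := by rw [← hU, hd]; exact U.mul_inv
  have hauU : (au F V).mapMatrix d = 1 := by
    have h1 := congrArg (au F V).mapMatrix hUe
    rw [map_mul, haug, map_one, map_one, one_mul] at h1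
    exact h1
  let f : B →ₗ[F] Matrix (Fin n) (Fin n) (MonoidAlgebra F V) :=
    { toFun := fun b => f0 b * d
      map_add' := fun x y => by rw [map_add, add_mul]
      map_smul' := fun r x => by rw [map_smul, smul_mul_assoc, RingHom.id_apply] }
  have hf : ∀ b, f b = f0 b * d := fun b => rfl
  have hf1 : f 1 = 1 := by rw [hf]; exact hUe
  have hfβ : ∀ u, f (β u) = tn (π (β u)) u := by
    intro u
    have h1 := hl 1 u
    rw [mul_one] at h1
    rw [hf, h1, mul_assoc, hUe, mul_one]
  refine ⟨f, ⟨?_, ?_⟩, hf1, ?_, ?_⟩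
  · intro x i j
    have h1 : (au F V).mapMatrix (f x) = π x := by
      rw [hf, map_mul, haug, hauU, mul_one]
    have h2 := congrFun (congrFun h1 i) j
    exact h2
  · intro u i j
    rw [hfβ]
    rfl
  · intro u x
    rw [hfβ, hf, hf, hl, mul_assoc]
  · intro u x
    rw [hfβ, hf, hf, hr, mul_assoc, mul_assoc, hgU]

end Pool.Agent.PFC.B5a.H15
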