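import Pool.Agent.PFC.StmtsB7

/-!
# Squad PFC, block B7, rows LFC and TYA (helper15)
-/

open scoped BigOperators

noncomputable section

namespace Pool.Agent.PFC.H15

open Pool.Agent.Helper51_AWC Pool.Agent.Helper79_WRA Pool.Agent.PP Pool.Agent.PP.KF
open Pool.Agent.PP.K9 Pool.Agent.PP.K9.H97 Pool.Agent.PP.H75 Pool.Agent.PP.T3 Pool.Agent.PP.T2
open Pool.Agent.PP.T5 Pool.Agent.PP.TB Pool.Agent.PP.TV Pool.Agent.PP.TX
open Pool.Agent.PP.T8 (Fq Fr In Iq)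

attribute [local instance] Ideal.Quotient.field

private theorem ix_of (inx : K9.InxStmt) {ℓ : ℕ} [Fact ℓ.Prime]
    {M : Ideal (integralClosure ℤ ℂ)} [M.IsMaximal]
    (hM : (ℓ : integralClosure ℤ ℂ) ∈ M) {G : Type} [Group G] [Finite G] {e : G → FF M}
    {V : Subgroup G} {γ : G → FF M} (hL : Ld ℓ e V γ) : ¬ ℓ ∣ ix V γ :=
  inx ℓ M hM G e hL.blk V hL.tp hL.ab γ hL.gam.supp hL.gam.blk hL.und

/-- Row LFC. -/
theorem lfc (fct : FctStmt) (lnv : LnvStmt) (cyq : CyqStmt) (ln0 : TX.Ln0Stmt)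
    (clv : TV.ClvStmt) (cpv : TV.CpvStmt) (inx : K9.InxStmt) (lbd : K9.LbdStmt) : LfcStmt := by
  intro ℓ hℓ M _ hM h2 G _ _ e V γ hL hFc hCy
  have hF : GoodF ℓ (FF M) := H50.fld ℓ Fact.out M hM
  obtain ⟨A, iG, iF, f, V', γ', hL', hln, hfq, hZ, hix⟩ := lnv ℓ M hM G e V γ hL
  have hFc' : Fc V' γ' :=
    (clv ℓ (FF M) hF G A e V γ f V' γ' hL hL' (ix_of inx hM hL) hfq).2.1 hFc
  have hCy' : Cy V' γ' := cyq (FF M) G A V γ V' γ' hfq hCy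
  obtain ⟨hV1, hV2, hV3⟩ := cpv ℓ (FF M) hF A f V' γ' hL' (ix_of inx hM hL')
  have hVc : Vc V' γ' = V' := by
    refine le_antisymm hV1 fun v hv => ?_
    obtain ⟨z, hz, w, hw, rfl⟩ := hV3 v hv
    rw [hZ, Subgroup.mem_bot] at hz
    rw [hz, one_mul]
    exact hw
  rw [← hln, ← hix]
  by_cases hV : V' = ⊥
  · have h1 : ln f ≤ 1 := ln0 ℓ M hM A f V' γ' hL' hV
    have h3 : 1 ≤ ln f := (lbd ℓ M hM A f hL'.blk.1 hL'.blk.2.1).1
    have h4 : ix V' γ' = 1 := by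
      unfold ix
      rw [Subgroup.relIndex_eq_one, hV]
      intro t _
      rw [Subgroup.mem_centralizer_iff]
      intro h hh
      rw [SetLike.mem_coe, Subgroup.mem_bot] at hh
      rw [hh, one_mul, mul_one]
    omega
  · refine fct ℓ M hM h2 A f V' γ' hL' hV ?_ hCy'
    intro t ht v hv hv1 hc
    exact hFc' t ht v (by rw [hVc]; exact hv) hv1 hc

/-- Row TYA. -/
theorem tya (gec : GecStmt) (lfc : LfcStmt) (cyq : CyqStmt) (clv : TV.ClvStmt)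
    (fqt : T8.FqtStmt) (inx : K9.InxStmt) : TyaStmt := by
  intro ℓ hℓ M _ hM h2 G _ _ e V γ hL a ha hexp hFc hCy
  have hF : GoodF ℓ (FF M) := H50.fld ℓ Fact.out M hM
  refine gec ℓ M hM a ha (fun G _ _ V γ => Fc V γ ∧ Cy V γ) ?_ ?_ G e V γ hL hexp ⟨hFc, hCy⟩
  · intro G A _ _ _ _ e V γ f V' γ' hL hL' hfq _ _ hT
    exact ⟨(clv ℓ (FF M) hF G A e V γ f V' γ' hL hL' (ix_of inx hM hL) hfq).2.1 hT.1,
      cyq (FF M) G A V γ V' γ' hfq hT.2⟩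
  · intro G _ _ e V γ _ hL _ hT _ f hf
    have hfq := (fqt ℓ (FF M) hF G e V γ hL).2.2.1 _ f hf
    have hFc' := (clv ℓ (FF M) hF G _ e V γ _ _ _ hL hf.ld (ix_of inx hM hL) hfq).2.1 hT.1
    have hCy' := cyq (FF M) G _ V γ _ _ hfq hT.2
    rw [lfc ℓ M hM h2 G e V γ hL hT.1 hT.2, lfc ℓ M hM h2 _ _ _ _ hf.ld hFc' hCy', hf.ix]

end Pool.Agent.PFC.H15
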