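import Pool.Agent.PFC.StmtsB4b

/-!
Squad PFC, block B4b, row QLA (helper15): products of concatenated lists.
-/

set_option autoImplicit false

noncomputable section

namespace Pool.Agent.PFC.H15

open scoped BigOperators TensorProduct

/-- QLA. -/
theorem qla (qis : QisStmt) : QlaStmt := by
  intro F V ι _ _ _ S L L'
  obtain ⟨hr, hs, ht, -, -, -, -, hten, -, hcomm, hassoc, hone, -⟩ := qis F V
  induction L with
  | nil =>
    exact hs _ _ (hone _)
  | cons p L ih =>
    obtain ⟨Q, ε⟩ := p
    cases ε with
    | true =>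
      exact ht _ _ _ (hten _ _ _ _ (hr _) ih) (hs _ _ (hassoc _ _ _))
    | false =>
      exact ht _ _ _ (hten _ _ _ _ (hr _) ih) (hs _ _ (hassoc _ _ _))

end Pool.Agent.PFC.H15
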